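import Mathlib
import Pool.Agent.Run7.h320.D.TLa

set_option autoImplicit false

/-!
# The Havet–Yu conjecture for dense graphs
-/

namespace Pool.Agent.Results.MP_b8729f_co.DenseGraphs

/-- `TotalLabeling G p l`: the graph `G` has a `(p,1)`-total labeling of span `l`, that is, labels
`0, …, l` for the vertices (`fV`) and the edges (`fE`) such that adjacent vertices get different
labels, edges sharing an endpoint get different labels, and the labels of a vertex and of an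
incident edge differ by at least `p`. -/
def TotalLabeling {V : Type} (G : SimpleGraph V) (p l : ℕ) : Prop :=
  ∃ (fV : V → ℕ) (fE : Sym2 V → ℕ),
    (∀ v, fV v ≤ l) ∧ (∀ e ∈ G.edgeSet, fE e ≤ l) ∧
    (∀ u v, G.Adj u v → fV u ≠ fV v) ∧
    (∀ u v w, G.Adj u v → G.Adj u w → v ≠ w → fE s(u, v) ≠ fE s(u, w)) ∧
    (∀ u v, G.Adj u v → (p : ℤ) ≤ |(fV u : ℤ) - (fE s(u, v) : ℤ)|)

/-- **The Havet–Yu conjecture for dense graphs.**  For every `δ > 0` there are `ε > 0` and `n₀` such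
that every graph `G` on `n ≥ n₀` vertices with at most `(1 - δ) n ^ 2 / 2` edges and all degrees at
most `D`, where `D ≥ (1 - ε) n`, has for all `1 ≤ p ≤ ε n` a `(p,1)`-total labeling of span
`D + 2 p - 2`.  This is the least possible span if `G` contains `2 p - 1` pairwise adjacent vertices
of degree `D`. -/
theorem result : ∀ δ : ℝ, 0 < δ → ∃ ε : ℝ, 0 < ε ∧ ∃ n₀ : ℕ,
    ∀ (V : Type) [Fintype V] (G : SimpleGraph V) (D p : ℕ), n₀ ≤ Fintype.card V →
      (∀ v, (G.neighborSet v).ncard ≤ D) → (1 - ε) * Fintype.card V ≤ D →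
      2 * (G.edgeSet.ncard : ℝ) ≤ (1 - δ) * (Fintype.card V : ℝ) ^ 2 →
      1 ≤ p → (p : ℝ) ≤ ε * Fintype.card V →
      TotalLabeling G p (D + 2 * p - 2) ∧
        ((∃ K : Finset V, K.card = 2 * p - 1 ∧ (∀ u ∈ K, ∀ v ∈ K, u ≠ v → G.Adj u v) ∧
            ∀ u ∈ K, (G.neighborSet u).ncard = D) →
          ∀ l : ℕ, TotalLabeling G p l → D + 2 * p - 2 ≤ l) := by
  intro δ hδ
  obtain ⟨ε, hε, n₀, h⟩ := Pool.Agent.Run7.h320.D.tlN δ hδ
  refine ⟨min ε (1 / 2), lt_min hε (by norm_num), max n₀ 2, ?_⟩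
  intro V _ G D p hn hdeg hD hE hp hpn
  have hV : (2 : ℝ) ≤ Fintype.card V := by exact_mod_cast (le_max_right _ _).trans hn
  have hV0 : (0 : ℝ) ≤ Fintype.card V := by linarith
  have h1 : min ε (1 / 2) * (Fintype.card V : ℝ) ≤ ε * Fintype.card V :=
    mul_le_mul_of_nonneg_right (min_le_left _ _) hV0
  have h2 : min ε (1 / 2) * (Fintype.card V : ℝ) ≤ 1 / 2 * Fintype.card V :=
    mul_le_mul_of_nonneg_right (min_le_right _ _) hV0
  refine ⟨h V G D p ((le_max_left _ _).trans hn) hp (hpn.trans h1) hdeg (by linarith) hE, ?_⟩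
  rintro ⟨K, hK, hcl, hKd⟩ l ⟨fV, fE, l1, l2, l3, l4, l5⟩
  by_contra hl
  have hD1 : 1 ≤ D := by
    have : (1 : ℝ) ≤ D := by linarith
    exact_mod_cast this
  refine Pool.Agent.Run7.h320.D.tl_sharp G D p hD1 hp K hK hcl (fun u hu => (hKd u hu).ge) fV fE
    (fun v => ?_) (fun e he => ?_) l3 l4 l5
  · have := l1 v
    omega
  · have := l2 e he
    omega

end Pool.Agent.Results.MP_b8729f_co.DenseGraphs
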