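import Pool.Agent.Run7.h320.E.HY
import Pool.Agent.Run7.h320.RG.J

/-!
# (p,1)-total labellings of random graphs of logarithmic average degree from lists
-/

set_option autoImplicit false

namespace Pool.Agent.Results.MP_b8729f_co.LogDegreeRandomGraphs

/-- `ListLabeling G p k`: whenever every vertex and every edge of `G` has a list of at least `k`
labels, there is a `(p,1)`-total labelling with labels from the lists: adjacent vertices get
different labels, edges sharing an endpoint get different labels, and the labels of a vertex and of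
an incident edge differ by at least `p`. (For the lists `{0, …, k - 1}` the span is at most
`k - 1`.) -/
def ListLabeling {V : Type} (G : SimpleGraph V) (p k : ℕ) : Prop :=
  ∀ (M : V → Finset ℕ) (L : Sym2 V → Finset ℕ), (∀ v, k ≤ (M v).card) →
    (∀ e ∈ G.edgeSet, k ≤ (L e).card) →
    ∃ (fV : V → ℕ) (fE : Sym2 V → ℕ), (∀ v, fV v ∈ M v) ∧ (∀ e ∈ G.edgeSet, fE e ∈ L e) ∧
      (∀ u v, G.Adj u v → fV u ≠ fV v) ∧
      (∀ u v w, G.Adj u v → G.Adj u w → v ≠ w → fE s(u, v) ≠ fE s(u, w)) ∧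
      (∀ u v, G.Adj u v → (p : ℤ) ≤ |(fV u : ℤ) - (fE s(u, v) : ℤ)|)

/-- `IsMaxDegree G D`: the maximum degree of `G` is `D`. -/
def IsMaxDegree {V : Type} (G : SimpleGraph V) (D : ℕ) : Prop :=
  (∀ v, (G.neighborSet v).ncard ≤ D) ∧ ∃ v, (G.neighborSet v).ncard = D

/-- The probability of the property `P` for the random graph `G(n, q)` on the vertices `0, …, n - 1`:
the graph `G` has the weight `q ^ m (1 - q) ^ (n (n - 1) / 2 - m)`, where `m` is the number of its
edges. -/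
noncomputable def prob {n : ℕ} (q : ℝ) (P : SimpleGraph (Fin n) → Prop) : ℝ := by
  classical exact ∑ G : SimpleGraph (Fin n), if P G then
    q ^ G.edgeSet.ncard * (1 - q) ^ (n.choose 2 - G.edgeSet.ncard) else 0

/-- For every `K > 0` there is `c > 0` and for every `δ > 0` there is `n₀` such that for all
`n ≥ n₀` and all `q` with `1 ≤ q n ≤ K log n` the following holds with probability at least `1 - δ`
for the random graph `G(n, q)`, where `D` is its maximum degree: for all `p` with `1 ≤ p ≤ c D` it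
has `(p,1)`-total labellings from all lists of `D + 2 p - 1` labels. -/
theorem result (K : ℝ) : ∃ c : ℝ, 0 < c ∧ ∀ δ : ℝ, 0 < δ → ∃ n₀ : ℕ, ∀ n : ℕ, n₀ ≤ n → ∀ q : ℝ,
    1 ≤ q * n → q * n ≤ K * Real.log n →
    1 - δ ≤ prob q (fun G : SimpleGraph (Fin n) =>
      ∃ D, IsMaxDegree G D ∧ ∀ p : ℕ, 1 ≤ p → (p : ℝ) ≤ c * D →
        ListLabeling G p (D + 2 * p - 1)) := by
  classical
  obtain ⟨ε, hε0, hε1, h⟩ := Pool.Agent.Run7.h320.RG.whp_tame K
  obtain ⟨c, hc, D₁, hD₁⟩ := Pool.Agent.Run7.h320.E.hyN (ε / 2) (by positivity)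
  refine ⟨min c (ε / 8), lt_min hc (by positivity), fun δ hδ => ?_⟩
  obtain ⟨n₀, hn₀⟩ := h (max (max D₁ ⌈4 / ε⌉₊) (max 4 ⌈1 / c⌉₊)) δ hδ
  refine ⟨n₀, fun n hn q hq hqK => ?_⟩
  rw [mul_comm] at hq hqK
  refine hn₀ n hn q hq hqK _ ?_
  rintro G ⟨D, k, hD, hk, hmax, hex, hfar⟩
  have hD1 : D₁ ≤ D := ((le_max_left _ _).trans (le_max_left _ _)).trans hD
  have hD2 : 4 / ε ≤ (D : ℝ) := (Nat.le_ceil _).trans
    (by exact_mod_cast ((le_max_right _ _).trans (le_max_left _ _)).trans hD)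
  have hD4 : 4 ≤ D := ((le_max_left _ _).trans (le_max_right _ _)).trans hD
  have hD5 : 1 / c ≤ (D : ℝ) := (Nat.le_ceil _).trans
    (by exact_mod_cast ((le_max_right _ _).trans (le_max_right _ _)).trans hD)
  rw [div_le_iff₀ hε0] at hD2
  rw [div_le_iff₀ hc] at hD5
  have hD0 : (0 : ℝ) ≤ D := Nat.cast_nonneg _
  have hsplit : (1 - ε / 2) * (D : ℝ) = (1 - ε) * D + (D * ε) / 2 := by ring
  have hpos : (0 : ℝ) ≤ (1 - ε) * D := mul_nonneg (by linarith) hD0
  obtain ⟨T, hT⟩ : ∃ T : Finset (Fin n), T = Finset.univ.filter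
    (fun v => k ≤ (G.neighborSet v).ncard) := ⟨_, rfl⟩
  have memT : ∀ v, v ∈ T ↔ k ≤ (G.neighborSet v).ncard := by
    intro v
    rw [hT, Finset.mem_filter]
    simp
  have hT0 : ∀ v ∈ T, {w : Fin n | w ∈ T ∧ G.Adj v w}.ncard = 0 := by
    intro v hv
    rw [Set.ncard_eq_zero (Set.toFinite _)]
    ext w
    constructor
    · rintro ⟨hw, hw'⟩
      exact (hfar v w (G.ne_of_adj hw') ((memT v).1 hv) ((memT w).1 hw)).1 hw'
    · intro hw
      exact absurd hw (Set.notMem_empty w)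
  have hT1 : ∀ v, {w : Fin n | w ∈ T ∧ G.Adj v w}.ncard ≤ 1 := by
    intro v
    rw [Set.ncard_le_one (Set.toFinite _)]
    rintro a ⟨ha, ha'⟩ b ⟨hb, hb'⟩
    by_contra hab
    exact (hfar a b hab ((memT a).1 ha) ((memT b).1 hb)).2 v ⟨G.adj_symm ha', G.adj_symm hb'⟩
  have hT1R : ∀ v, ({w : Fin n | w ∈ T ∧ G.Adj v w}.ncard : ℝ) ≤ 1 := by
    intro v
    exact_mod_cast hT1 v
  have hlow : ∀ x, x ∉ T → ((G.neighborSet x).ncard : ℝ) ≤ (1 - ε) * D := by
    intro x hx
    rw [memT, not_le] at hx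
    have h2 : ((G.neighborSet x).ncard : ℝ) + 1 ≤ k := by exact_mod_cast hx
    linarith
  refine ⟨D, ⟨hmax, hex⟩, fun p hp hpD => ?_⟩
  have hpc : (p : ℝ) ≤ c * D := hpD.trans (mul_le_mul_of_nonneg_right (min_le_left _ _) hD0)
  have hpε : (p : ℝ) ≤ ε / 8 * D := hpD.trans (mul_le_mul_of_nonneg_right (min_le_right _ _) hD0)
  have hp1 : (1 : ℝ) ≤ p := by exact_mod_cast hp
  exact hD₁ D p hD1 hp hpc (Fin n) G T hmax
    (fun v hv => by
      rw [hT0 v hv, hsplit]
      push_cast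
      linarith)
    (fun v x hv _ _ => by
      rw [hT0 v hv]
      have := hT1 x
      omega)
    (fun x hx => by
      have h2 := hlow x hx
      have h3 : (2 * (p : ℝ) - 1) * ({w : Fin n | w ∈ T ∧ G.Adj x w}.ncard : ℝ) ≤
          (2 * (p : ℝ) - 1) * 1 := mul_le_mul_of_nonneg_left (hT1R x) (by linarith)
      rw [hsplit]
      linarith)
    (fun x y hx _ _ => by
      have h2 := hlow x hx
      have h3 := hT1R y
      rw [hsplit]
      linarith)

end Pool.Agent.Results.MP_b8729f_co.LogDegreeRandomGraphs
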