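import Pool.Agent.Run7.h320.RG.G

/-!
# (p,1)-total labellings of random graphs of all densities

The Havet-Yu conjecture, with one label less, for the random graphs `G(n, q)` with
`(p + log (1 + q n))² log n = o(q n)`. The starting results treat `q n ≥ c n`.

Proof. Let `t` be the level such that the expected number of vertices of degree at least `t` is
about a large constant. The second moment method gives a vertex of degree at least `t`, and the
ratio of consecutive binomial probabilities near `t` is close to one, so the expected number of the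
vertices of degree at least `t - C (p + log Δ)` is bounded. The theorem of the starting repository on
graphs with few edges at the vertices of nearly maximal degree finishes the proof.
-/

set_option autoImplicit false

namespace Pool.Agent.Results.MP_b8729f_co.SparseRandomGraphs

/-- `TotalLabeling G p l`: the graph `G` has a `(p,1)`-total labelling of span `l`, that is, labels
`0, …, l` for the vertices (`fV`) and the edges (`fE`) such that adjacent vertices get different
labels, edges sharing an endpoint get different labels, and the labels of a vertex and of an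
incident edge differ by at least `p`. -/
def TotalLabeling {V : Type} (G : SimpleGraph V) (p l : ℕ) : Prop :=
  ∃ (fV : V → ℕ) (fE : Sym2 V → ℕ),
    (∀ v, fV v ≤ l) ∧ (∀ e ∈ G.edgeSet, fE e ≤ l) ∧
    (∀ u v, G.Adj u v → fV u ≠ fV v) ∧
    (∀ u v w, G.Adj u v → G.Adj u w → v ≠ w → fE s(u, v) ≠ fE s(u, w)) ∧
    (∀ u v, G.Adj u v → (p : ℤ) ≤ |(fV u : ℤ) - (fE s(u, v) : ℤ)|)

/-- The probability of the property `P` for the random graph `G(n, q)` on the vertices `0, …, n - 1`:
the graph `G` has the weight `q ^ m (1 - q) ^ (n (n - 1) / 2 - m)`, where `m` is the number of its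
edges. -/
noncomputable def prob {n : ℕ} (q : ℝ) (P : SimpleGraph (Fin n) → Prop) : ℝ := by
  classical exact ∑ G : SimpleGraph (Fin n), if P G then
    q ^ G.edgeSet.ncard * (1 - q) ^ (n.choose 2 - G.edgeSet.ncard) else 0

/-- `IsMaxDegree G D`: the maximum degree of `G` is `D`. -/
def IsMaxDegree {V : Type} (G : SimpleGraph V) (D : ℕ) : Prop :=
  (∀ v, (G.neighborSet v).ncard ≤ D) ∧ ∃ v, (G.neighborSet v).ncard = D

/-- For all `c > 0` and `ε > 0` there are `κ > 0` and `n₀` such that for all `n ≥ n₀`, all `p ≥ 1`
and all `q` with `0 < q ≤ 1 - c` and `(p + log (1 + q n))² log n ≤ κ q n` the following holds with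
probability at least `1 - ε` for the random graph `G(n, q)`: if `D` is its maximum degree, it has a
`(p,1)`-total labelling of span `D + 2 p - 2`. -/
theorem result (c ε : ℝ) (hc : 0 < c) (hε : 0 < ε) : ∃ κ : ℝ, 0 < κ ∧ ∃ n₀ : ℕ, ∀ n : ℕ, n₀ ≤ n →
    ∀ (q : ℝ) (p : ℕ), 0 < q → q ≤ 1 - c → 1 ≤ p →
    (p + Real.log (1 + q * n)) ^ 2 * Real.log n ≤ κ * (q * n) →
    1 - ε ≤ prob q (fun G : SimpleGraph (Fin n) =>
      ∃ D, IsMaxDegree G D ∧ TotalLabeling G p (D + 2 * p - 2)) := by
  obtain ⟨κ, hκ, n₀, h⟩ := Pool.Agent.Run7.h320.RG.whp c ε hc hε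
  refine ⟨κ, hκ, n₀, fun n hn q p hq hqc hp hcond => ?_⟩
  refine h n hn q p hq hqc hp hcond _ ?_
  intro G D B T h1 h2 _ h4 h5 h6 h7 h8
  exact ⟨D, ⟨h1, h2⟩, Pool.Agent.Run7.h320.RG.main_part p hp (Fin n) G D T (2 * B) B h4 h5 h1 h6
    (fun v _ => h7 v) h8⟩

end Pool.Agent.Results.MP_b8729f_co.SparseRandomGraphs
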