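import Mathlib
import Pool.Agent.Run7.h320.E.HY

set_option autoImplicit false

/-!
# The Havet–Yu conjecture for graphs whose vertices have few neighbours of large degree
-/

namespace Pool.Agent.Results.MP_b8729f_co.TwoPartLists

/-- `ListLabeling G p k`: from any finite sets (lists) of at least `k` natural numbers, `M v` at the
vertices `v` and `L e` at the edges `e` of `G`, one can choose a `(p,1)`-total labeling: `fV v` is
in `M v`, `fE e` is in `L e`, adjacent vertices get different labels, edges sharing an endpoint get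
different labels, and the labels of a vertex and of an incident edge differ by at least `p`. (For
the lists `{0, …, k - 1}` this is a `(p,1)`-total labeling of span `k - 1`.) -/
def ListLabeling {V : Type} (G : SimpleGraph V) (p k : ℕ) : Prop :=
  ∀ (M : V → Finset ℕ) (L : Sym2 V → Finset ℕ), (∀ v, k ≤ (M v).card) →
    (∀ e ∈ G.edgeSet, k ≤ (L e).card) →
    ∃ (fV : V → ℕ) (fE : Sym2 V → ℕ), (∀ v, fV v ∈ M v) ∧ (∀ e ∈ G.edgeSet, fE e ∈ L e) ∧
      (∀ u v, G.Adj u v → fV u ≠ fV v) ∧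
      (∀ u v w, G.Adj u v → G.Adj u w → v ≠ w → fE s(u, v) ≠ fE s(u, w)) ∧
      (∀ u v, G.Adj u v → (p : ℤ) ≤ |(fV u : ℤ) - (fE s(u, v) : ℤ)|)

/-- **The list version of the Havet–Yu conjecture, with span `D + 2 p - 2`,** for graphs of large
maximum degree (at most `D`) of three kinds; the number of vertices is arbitrary.

(1) There is a set `T` of vertices such that every vertex of `T` has at most `(1 - ε) D` neighbours
in `T`, adjacent vertices `v` in `T` and `x` outside `T` have together at most `D` neighbours in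
`T`, every vertex `x` outside `T` satisfies `deg x + (2 p - 1) d_T(x) ≤ (1 - ε) D`, and adjacent
vertices `x`, `y` outside `T` satisfy `deg x + d_T(y) ≤ (1 - ε) D`, where `d_T(x)` is the number of
neighbours of `x` in `T`; here `p ≤ c D` with `c` depending only on `ε`.

(2) For every `δ > 0` there is `c > 0`: every vertex has at most `c D / p` neighbours of degree more
than `(1 - δ) D`, and `p ≤ c D`.

(3) For fixed `p` and `ε > 0`: every vertex of degree more than `(1 - ε) D / (2 p)` has at most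
`(1 - 1 / (2 p)) D` neighbours of degree more than `(1 - ε) D / (2 p)`. -/
theorem result :
    (∀ ε : ℝ, 0 < ε → ∃ c : ℝ, 0 < c ∧ ∃ D₀ : ℕ, ∀ D p : ℕ, D₀ ≤ D → 1 ≤ p → (p : ℝ) ≤ c * D →
      ∀ (V : Type) [Fintype V] (G : SimpleGraph V) (T : Finset V),
        (∀ v, (G.neighborSet v).ncard ≤ D) →
        (∀ v ∈ T, ({w : V | w ∈ T ∧ G.Adj v w}.ncard : ℝ) ≤ (1 - ε) * D) →
        (∀ v x, v ∈ T → x ∉ T → G.Adj v x →
          {w : V | w ∈ T ∧ G.Adj v w}.ncard + {w : V | w ∈ T ∧ G.Adj x w}.ncard ≤ D) →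
        (∀ x, x ∉ T → ((G.neighborSet x).ncard : ℝ) +
          (2 * p - 1) * {w : V | w ∈ T ∧ G.Adj x w}.ncard ≤ (1 - ε) * D) →
        (∀ x y, x ∉ T → y ∉ T → G.Adj x y → ((G.neighborSet x).ncard : ℝ) +
          {w : V | w ∈ T ∧ G.Adj y w}.ncard ≤ (1 - ε) * D) →
        ListLabeling G p (D + 2 * p - 1)) ∧
    (∀ δ : ℝ, 0 < δ → ∃ c : ℝ, 0 < c ∧ ∃ D₀ : ℕ, ∀ D p : ℕ, D₀ ≤ D → 1 ≤ p → (p : ℝ) ≤ c * D →
      ∀ (V : Type) [Fintype V] (G : SimpleGraph V), (∀ v, (G.neighborSet v).ncard ≤ D) →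
        (∀ v, ({w : V | (1 - δ) * D < (G.neighborSet w).ncard ∧ G.Adj v w}.ncard : ℝ) ≤
          c * D / p) →
        ListLabeling G p (D + 2 * p - 1)) ∧
    (∀ p : ℕ, 1 ≤ p → ∀ ε : ℝ, 0 < ε → ∃ D₀ : ℕ, ∀ D : ℕ, D₀ ≤ D →
      ∀ (V : Type) [Fintype V] (G : SimpleGraph V), (∀ v, (G.neighborSet v).ncard ≤ D) →
        (∀ v, (1 - ε) * D / (2 * p) < (G.neighborSet v).ncard →
          ({w : V | (1 - ε) * D / (2 * p) < (G.neighborSet w).ncard ∧ G.Adj v w}.ncard : ℝ) ≤
            (1 - 1 / (2 * p)) * D) →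
        ListLabeling G p (D + 2 * p - 1)) :=
  ⟨Pool.Agent.Run7.h320.E.hyN, Pool.Agent.Run7.h320.E.hyA, Pool.Agent.Run7.h320.E.hyB⟩

end Pool.Agent.Results.MP_b8729f_co.TwoPartLists
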